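import Mathlib
import Pool.Agent.CPT.StmtsD

set_option autoImplicit false

/-! Squad CPT (MP_b2b50d_lc), row BSL: linear substitutions in limits. -/

namespace Pool.Agent.CPT.H44

open MvPolynomial Pool.Agent.BSH Pool.Agent.Helper78_ACIT Pool.Agent.CPT

theorem map_mem_sp {E E' : Type} [Field E] [Field E'] {k : ℕ} (f : E →+* E')
    {p : MvPolynomial (Fin k) E}
    (hp : p ∈ sp E (Set.range X) ([] : List (MvPolynomial (Fin k) E))) :
    map f p ∈ sp E' (Set.range X) ([] : List (MvPolynomial (Fin k) E')) := by
  unfold sp at hp ⊢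
  induction hp using Submodule.span_induction with
  | mem x hx =>
    rcases hx with (hx | hx) | hx
    · rw [Set.mem_singleton_iff] at hx
      rw [hx, map_one]
      exact Submodule.subset_span (Or.inl (Or.inl rfl))
    · obtain ⟨j, rfl⟩ := hx
      rw [map_X]
      exact Submodule.subset_span (Or.inl (Or.inr ⟨j, rfl⟩))
    · exact absurd hx List.not_mem_nil
  | zero =>
    rw [map_zero]
    exact Submodule.zero_mem _
  | add x y _ _ hx hy =>
    rw [map_add]
    exact Submodule.add_mem _ hx hy
  | smul a x _ hx =>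
    rw [MvPolynomial.smul_eq_C_mul, map_mul, map_C, ← MvPolynomial.smul_eq_C_mul]
    exact Submodule.smul_mem _ _ hx

/-- the substitution over `E[ε]` -/
noncomputable def psi {E : Type} [Field E] {n k : ℕ}
    (φ : MvPolynomial (Fin n) E →ₐ[E] MvPolynomial (Fin k) E) :
    MvPolynomial (Fin n) (Polynomial E) →ₐ[Polynomial E] MvPolynomial (Fin k) (Polynomial E) :=
  aeval (fun i => map Polynomial.C (φ (X i)))

/-- the substitution over `E(ε)` -/
noncomputable def phi1 {E : Type} [Field E] {n k : ℕ}
    (φ : MvPolynomial (Fin n) E →ₐ[E] MvPolynomial (Fin k) E) :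
    MvPolynomial (Fin n) (EE E) →ₐ[EE E] MvPolynomial (Fin k) (EE E) :=
  aeval (fun i => map ((algebraMap (Polynomial E) (EE E)).comp Polynomial.C) (φ (X i)))

theorem at0_psi {E : Type} [Field E] {n k : ℕ}
    (φ : MvPolynomial (Fin n) E →ₐ[E] MvPolynomial (Fin k) E)
    (G : MvPolynomial (Fin n) (Polynomial E)) : at0 (psi φ G) = φ (at0 G) := by
  have h : (map (Polynomial.evalRingHom (0 : E))).comp (psi φ : MvPolynomial (Fin n)
      (Polynomial E) →+* MvPolynomial (Fin k) (Polynomial E)) =
      (φ : MvPolynomial (Fin n) E →+* MvPolynomial (Fin k) E).comp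
        (map (Polynomial.evalRingHom (0 : E))) := by
    apply MvPolynomial.ringHom_ext
    · intro p
      rw [RingHom.comp_apply, RingHom.comp_apply, map_C, RingHom.coe_coe, RingHom.coe_coe]
      unfold psi
      rw [aeval_C, MvPolynomial.algebraMap_eq, map_C]
      exact (AlgHom.commutes φ _).symm
    · intro i
      rw [RingHom.comp_apply, RingHom.comp_apply, map_X, RingHom.coe_coe, RingHom.coe_coe]
      unfold psi
      rw [aeval_X, map_map]
      have e : (Polynomial.evalRingHom (0 : E)).comp Polynomial.C = RingHom.id E := by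
        ext a
        simp
      rw [e, map_id]
  exact RingHom.congr_fun h G

theorem gen1_psi {E : Type} [Field E] {n k : ℕ}
    (φ : MvPolynomial (Fin n) E →ₐ[E] MvPolynomial (Fin k) E)
    (G : MvPolynomial (Fin n) (Polynomial E)) : gen1 (psi φ G) = phi1 φ (gen1 G) := by
  have h : (map (algebraMap (Polynomial E) (EE E))).comp (psi φ : MvPolynomial (Fin n)
      (Polynomial E) →+* MvPolynomial (Fin k) (Polynomial E)) =
      (phi1 φ : MvPolynomial (Fin n) (EE E) →+* MvPolynomial (Fin k) (EE E)).comp
        (map (algebraMap (Polynomial E) (EE E))) := by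
    apply MvPolynomial.ringHom_ext
    · intro p
      rw [RingHom.comp_apply, RingHom.comp_apply, map_C, RingHom.coe_coe, RingHom.coe_coe]
      unfold psi phi1
      rw [aeval_C, aeval_C, MvPolynomial.algebraMap_eq, MvPolynomial.algebraMap_eq, map_C]
    · intro i
      rw [RingHom.comp_apply, RingHom.comp_apply, map_X, RingHom.coe_coe, RingHom.coe_coe]
      unfold psi phi1
      rw [aeval_X, aeval_X, map_map]
  exact RingHom.congr_fun h G

theorem bsl (hSBL : SblStmt) : BslStmt := by
  intro E _ n k s F φ hF hφ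
  obtain ⟨G, rfl, hG⟩ := hF
  refine ⟨psi φ G, at0_psi φ G, ?_⟩
  rw [gen1_psi]
  apply hSBL (EE E) n k s (gen1 G) (phi1 φ) hG
  intro i
  unfold phi1
  rw [aeval_X]
  exact map_mem_sp _ (hφ i)

end Pool.Agent.CPT.H44
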