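import Mathlib
import Pool.Agent.CPT.StmtsA

set_option autoImplicit false

/-! Squad CPT (MP_b2b50d_lc), row NUM: the number of the exponents. -/

namespace Pool.Agent.CPT.H44

open Pool.Agent.CPT

theorem num_aux : ∀ n A : ℕ, ∃ S : Finset (Fin n → ℕ), S.card = (A + n).choose n ∧
    ∀ α ∈ S, ∑ i, α i ≤ A := by
  classical
  intro n
  induction n with
  | zero =>
    intro A
    exact ⟨{fun _ => 0}, by simp, by simp⟩
  | succ n ih =>
    intro A
    induction A with
    | zero =>
      refine ⟨{fun _ => 0}, by simp, ?_⟩
      intro α hα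
      rw [Finset.mem_singleton] at hα
      rw [hα]
      simp
    | succ A ihA =>
      obtain ⟨S1, h1, h1'⟩ := ih (A + 1)
      obtain ⟨S2, h2, h2'⟩ := ihA
      refine ⟨S1.image (fun α => (Fin.cons 0 α : Fin (n + 1) → ℕ)) ∪
        S2.image (fun α => (Fin.cons (α 0 + 1) (Fin.tail α) : Fin (n + 1) → ℕ)), ?_, ?_⟩
      · rw [Finset.card_union_of_disjoint, Finset.card_image_of_injective,
          Finset.card_image_of_injective, h1, h2]
        · have e1 : A + 1 + (n + 1) = (A + n + 1) + 1 := by omega
          have e2 : A + 1 + n = A + n + 1 := by omega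
          have e3 : A + (n + 1) = A + n + 1 := by omega
          rw [e1, e2, e3, Nat.choose_succ_succ (A + n + 1) n]
        · intro α β hαβ
          have hαβ : (Fin.cons (α 0 + 1) (Fin.tail α) : Fin (n + 1) → ℕ) =
              Fin.cons (β 0 + 1) (Fin.tail β) := hαβ
          rw [Fin.cons_inj] at hαβ
          obtain ⟨h3, h4⟩ := hαβ
          rw [← Fin.cons_self_tail α, ← Fin.cons_self_tail β, h4]
          have h5 : α 0 = β 0 := by omega
          rw [h5]
        · intro α β hαβ
          have hαβ : (Fin.cons 0 α : Fin (n + 1) → ℕ) = Fin.cons 0 β := hαβ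
          rw [Fin.cons_inj] at hαβ
          exact hαβ.2
        · rw [Finset.disjoint_left]
          intro α hα hα'
          rw [Finset.mem_image] at hα hα'
          obtain ⟨β, _, rfl⟩ := hα
          obtain ⟨γ, _, hγ⟩ := hα'
          rw [Fin.cons_inj] at hγ
          have := hγ.1
          omega
      · intro α hα
        rw [Finset.mem_union, Finset.mem_image, Finset.mem_image] at hα
        rcases hα with ⟨β, hβ, rfl⟩ | ⟨β, hβ, rfl⟩
        · rw [Fin.sum_univ_succ]
          simp only [Fin.cons_zero, Fin.cons_succ, zero_add]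
          exact h1' β hβ
        · have h3 := h2' β hβ
          rw [Fin.sum_univ_succ] at h3
          rw [Fin.sum_univ_succ]
          simp only [Fin.cons_zero, Fin.cons_succ, Fin.tail]
          omega

theorem num : NumStmt := by
  classical
  intro n A
  obtain ⟨S, h1, h2⟩ := num_aux n A
  refine ⟨S.image (Finsupp.equivFunOnFinite (α := Fin n) (M := ℕ)).symm, ?_, ?_⟩
  · rw [Finset.card_image_of_injective _ (Equiv.injective _), h1]
  · intro α hα
    rw [Finset.mem_image] at hα
    obtain ⟨β, hβ, rfl⟩ := hα
    exact h2 β hβ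

end Pool.Agent.CPT.H44
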